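import Pool.Agent.X220.FP.Cor
import Pool.Agent.X220.FP.Alg

/-!
# Almost primes `n` with `n ^ d + m` almost prime, `d` odd, with prescribed fractional parts, in short intervals

Let `d > 1` be odd, and let `m` be an integer which is no `e`-th power for the divisors `e > 1` of `d`, and even. Let
`P_1, …, P_s` be real polynomials of degree at most `k ≥ 1` whose vector of the coefficients of `x ^ k` is of finite type:
the distance of `h_1 α_1 + … + h_s α_s` to the nearest integer is at least `c₀ / |h| ^ τ` for all nonzero integral vectors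
`h` (for example `α_1, …, α_s` are algebraic and `1, α_1, …, α_s` are linearly independent over the rational numbers). We
consider the pairs `n, n ^ d + m` for the integers `n` of an ARBITRARY short interval `(M, M + H]` for which all the fractional
parts of `P_i(n) - u_i` are less than `ρ_i`, where the `ρ_i` may be as small as `H ^ (-δ)`.
* If `M + H ≤ H ^ B`, where `B` is arbitrary, the number of the `n` for which both numbers have a bounded number of prime
  factors, all greater than `H ^ δ`, has the expected order of magnitude.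
* The number of the `n` for which one gets primes is at most of this order.
* The number of the `n` for which there is no prime factor up to `z` is given by an asymptotic formula.

All this is uniform in the polynomials `P_i`, in `M`, and in the boxes. The proof combines the fundamental lemma of the
sieve, Mertens' theorem for polynomials (in the starting files), Weyl's inequality, and Liouville's inequality for norms.
-/

set_option autoImplicit false

namespace Pool.Agent.Results.MP_dff12b_nt.FractionalParts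

open Finset Polynomial

/-- the vector `α` is of finite type, with the constants `c₀` and `τ` -/
def FiniteType {s : ℕ} (c₀ : ℝ) (τ : ℕ) (α : Fin s → ℝ) : Prop :=
  ∀ h : Fin s → ℤ, h ≠ 0 → ∀ a : ℤ, c₀ ≤ (∑ i, |(h i : ℝ)|) ^ τ * |(∑ i, h i * α i) - a|

/-- all the fractional parts of `P_i(n) - u_i` are less than `ρ_i` -/
def InBox {s : ℕ} (P : Fin s → ℝ[X]) (u ρ : Fin s → ℝ) (n : ℕ) : Prop :=
  ∀ i, Int.fract ((P i).eval (n : ℝ) - u i) < ρ i

/-- `m ≠ 0` has at most `r` prime factors, counted with multiplicity, all of them greater than `x`. -/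
def AlmostPrime (r : ℕ) (x : ℝ) (m : ℕ) : Prop :=
  m ≠ 0 ∧ m.primeFactorsList.length ≤ r ∧ ∀ q : ℕ, q.Prime → q ∣ m → x < q

/-- the pair `(d, m)` is admissible -/
def Adm (d : ℕ) (m : ℤ) : Prop :=
  Odd d ∧ 1 < d ∧ Even m ∧ ∀ e : ℕ, 1 < e → e ∣ d → ∀ a : ℤ, m ≠ a ^ e

/-- the number `n ^ d + m` -/
def val (d : ℕ) (m : ℤ) (n : ℕ) : ℤ := (n : ℤ) ^ d + m

/-- the number of the `n` in `(M, M + H]` with the property `R` for which `n` and `n ^ d + m` are almost primes -/
noncomputable def almost (d : ℕ) (m : ℤ) (r : ℕ) (w : ℝ) (M H : ℕ) (R : ℕ → Prop) : ℕ :=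
  Set.ncard {n : ℕ | M < n ∧ n ≤ M + H ∧ R n ∧ AlmostPrime r w n ∧ AlmostPrime r w (val d m n).natAbs}

/-- the number of the `n` in `(M, M + H]` with the property `R` for which `n` and `|n ^ d + m|` are primes -/
noncomputable def primes (d : ℕ) (m : ℤ) (M H : ℕ) (R : ℕ → Prop) : ℕ :=
  Set.ncard {n : ℕ | M < n ∧ n ≤ M + H ∧ R n ∧ n.Prime ∧ (val d m n).natAbs.Prime}

/-- the number of the `n` in `(M, M + H]` with the property `R` for which `n` and `n ^ d + m` have no prime factor up to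
`z` -/
noncomputable def rough (d : ℕ) (m : ℤ) (z M H : ℕ) (R : ℕ → Prop) : ℕ :=
  Set.ncard {n : ℕ | M < n ∧ n ≤ M + H ∧ R n ∧ ∀ l : ℕ, l.Prime → l ≤ z → ¬ l ∣ n ∧ ¬ l ∣ (val d m n).natAbs}

/-- the product over the primes `l ≤ z` of `1 - ν(l) / l`, where `ν(l)` is the number of the residues `n` modulo `l` for
which `n` or `n ^ d + m` is divisible by `l` -/
noncomputable def V (d : ℕ) (m : ℤ) (z : ℕ) : ℝ :=
  ∏ l ∈ (Icc 1 z).filter Nat.Prime, (1 - (Set.ncard {n : ℕ | n < l ∧ (l ∣ n ∨ l ∣ (val d m n).natAbs)} : ℝ) / l)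

/-- the bounds for the interval `(M, M + H]` and the property `R`, with the expected number `N` -/
def Bounds (d : ℕ) (m : ℤ) (T r : ℕ) (δ c C : ℝ) (B M H : ℕ) (R : ℕ → Prop) (N : ℝ) : Prop :=
  (M + H ≤ T ^ B → c * N / Real.log T ^ 2 ≤ almost d m r ((T : ℝ) ^ δ) M H R) ∧
    (primes d m M H R : ℝ) ≤ C * N / Real.log T ^ 2

/-- the asymptotic formula for the interval `(M, M + H]` and the property `R`, with the expected number `N` -/
def Rough (d : ℕ) (m : ℤ) (η : ℝ) (M H z : ℕ) (R : ℕ → Prop) (N : ℝ) : Prop :=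
  |(rough d m z M H R : ℝ) - N * V d m z| ≤ η * (N * V d m z)

lemma pow_irr {d : ℕ} (hd : Odd d) {m : ℤ} (hm : ∀ e : ℕ, 1 < e → e ∣ d → ∀ a : ℤ, m ≠ a ^ e) :
    Irreducible (X ^ d + C m : ℤ[X]) := by
  have hd0 : d ≠ 0 := by rintro rfl; simp at hd
  have hmon : (X ^ d + C m : ℤ[X]).Monic := monic_X_pow_add_C m hd0
  rw [IsPrimitive.Int.irreducible_iff_irreducible_map_cast hmon.isPrimitive]
  have e1 : (X ^ d + C m : ℤ[X]).map (Int.castRingHom ℚ) = X ^ d - C (-(m : ℚ)) := by simp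
  rw [e1]
  apply X_pow_sub_C_irreducible_of_odd hd
  intro p hp hpd b hb
  have hpo : Odd p := Odd.of_dvd_nat hd hpd
  have h1 : IsIntegral ℤ b := by
    refine IsIntegral.of_pow hp.pos ?_
    rw [hb]
    have h0 := isIntegral_algebraMap (R := ℤ) (A := ℚ) (x := -m)
    simpa using h0
  obtain ⟨a, ha⟩ := IsIntegrallyClosed.isIntegral_iff.1 h1
  apply hm p hp.one_lt hpd (-a)
  have h2 : ((a ^ p : ℤ) : ℚ) = ((-m : ℤ) : ℚ) := by
    push_cast
    rw [← hb, ← ha]
    simp
  have h3 : a ^ p = -m := by exact_mod_cast h2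
  rw [hpo.neg_pow, h3, neg_neg]

/-- the polynomials -/
noncomputable def f (d : ℕ) (m : ℤ) : Fin 2 → ℤ[X] := ![X, X ^ d + C m]

/-- the values -/
def F (d : ℕ) (m : ℤ) : Fin 2 → ℕ → ℕ := ![fun n => n, fun n => (val d m n).natAbs]

lemma f_sys {d : ℕ} {m : ℤ} (h : Adm d m) : Pool.Agent.X55.Fam.Sys 2 (f d m) := by
  obtain ⟨hd, hd1, hm2, hm⟩ := h
  have hdeg1 : (X ^ d + C m : ℤ[X]).natDegree = d := natDegree_X_pow_add_C
  have hna : ¬ Associated (X : ℤ[X]) (X ^ d + C m) := by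
    intro h
    have h1 := natDegree_eq_of_degree_eq (degree_eq_degree_of_associated h)
    rw [natDegree_X, hdeg1] at h1
    omega
  refine ⟨fun i => ?_, fun i => ?_, fun i j hij => ?_, fun q hq => ?_⟩
  · fin_cases i
    · exact irreducible_X
    · exact pow_irr hd hm
  · fin_cases i
    · show 0 < (X : ℤ[X]).natDegree
      rw [natDegree_X]
      norm_num
    · show 0 < (X ^ d + C m : ℤ[X]).natDegree
      rw [hdeg1]
      omega
  · fin_cases i <;> fin_cases j
    · exact absurd rfl hij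
    · exact hna
    · exact fun h => hna h.symm
    · exact absurd rfl hij
  · have hq2 := hq.two_le
    have hnu : ¬ (q : ℤ) ∣ 1 := by
      intro h
      have := Int.eq_one_of_dvd_one (by positivity) h
      omega
    have key : ∃ n : ℕ, ¬ (q : ℤ) ∣ (n : ℤ) ∧ ¬ (q : ℤ) ∣ (n : ℤ) ^ d + m := by
      by_cases h : (q : ℤ) ∣ 1 + m
      · refine ⟨q - 1, fun h2 => ?_, fun h2 => ?_⟩
        · have h3 : q ∣ q - 1 := by exact_mod_cast h2
          have := Nat.le_of_dvd (by omega) h3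
          omega
        · have e1 : (((q - 1 : ℕ) : ℤ)) = q - 1 := by
            rw [Nat.cast_sub (by omega)]
            norm_num
          rw [e1] at h2
          have h3 : (q : ℤ) ∣ ((q : ℤ) - 1) ^ d - (-1) ^ d := by
            have := sub_dvd_pow_sub_pow ((q : ℤ) - 1) (-1) d
            have e2 : ((q : ℤ) - 1) - (-1) = q := by ring
            rwa [e2] at this
          rw [hd.neg_one_pow] at h3
          have h4 : (q : ℤ) ∣ 2 := by
            have h5 := dvd_sub h (dvd_sub h2 h3)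
            have e3 : 1 + m - (((q : ℤ) - 1) ^ d + m - (((q : ℤ) - 1) ^ d - -1)) = 2 := by ring
            rwa [e3] at h5
          have h6 : q = 2 := (Nat.prime_dvd_prime_iff_eq hq Nat.prime_two).1 (by exact_mod_cast h4)
          subst h6
          obtain ⟨t, ht⟩ := hm2
          push_cast at h
          omega
      · exact ⟨1, by simpa using hnu, by simpa using h⟩
    obtain ⟨n, h1, h2⟩ := key
    refine ⟨n, fun i hi => ?_⟩
    fin_cases i
    · have h3 : (q : ℤ) ∣ (X : ℤ[X]).eval (n : ℤ) := hi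
      rw [eval_X] at h3
      exact h1 h3
    · have h3 : (q : ℤ) ∣ (X ^ d + C m : ℤ[X]).eval (n : ℤ) := hi
      simp only [eval_add, eval_pow, eval_X, eval_C] at h3
      exact h2 h3

lemma hF (d : ℕ) (m : ℤ) (i : Fin 2) (n : ℕ) : ((f d m i).eval (n : ℤ)).natAbs = F d m i n := by
  fin_cases i
  · show ((X : ℤ[X]).eval (n : ℤ)).natAbs = n
    rw [eval_X, Int.natAbs_natCast]
  · show ((X ^ d + C m : ℤ[X]).eval (n : ℤ)).natAbs = (val d m n).natAbs
    simp only [eval_add, eval_pow, eval_X, eval_C, val]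

lemma conv {d : ℕ} {m : ℤ} {P r : ℕ} {δ c C : ℝ} {B M H : ℕ} {R : ℕ → Prop} {N : ℝ}
    (h : Pool.Agent.X55.Fam.Both (F d m) P r δ c C B M H R N) : Bounds d m P r δ c C B M H R N := by
  unfold Pool.Agent.X55.Fam.Both at h
  simpa [Bounds, almost, primes, AlmostPrime, F, Pool.Agent.X55.Fam.Good, Fin.forall_fin_succ] using h

lemma convA {d : ℕ} {m : ℤ} {η : ℝ} {M H z : ℕ} {R : ℕ → Prop} {N : ℝ}
    (h : Pool.Agent.X55.Fam.Asym (F d m) η M H z R N) : Rough d m η M H z R N := by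
  unfold Pool.Agent.X55.Fam.Asym at h
  simpa [Rough, rough, V, F, Fin.forall_fin_succ, Fin.exists_fin_succ] using h

theorem result :
    (∀ (d : ℕ) (m : ℤ), Adm d m → ∀ (s k τ : ℕ) (c₀ : ℝ), 1 ≤ k → 0 < c₀ →
    (∀ B : ℕ, ∃ (r : ℕ) (δ c C : ℝ) (H₀ : ℕ), 0 < δ ∧ 0 < c ∧ 0 < C ∧
      ∀ H : ℕ, H₀ ≤ H → ∀ P : Fin s → ℝ[X], (∀ i, (P i).natDegree ≤ k) → FiniteType c₀ τ (fun i => (P i).coeff k) →
      ∀ u ρ : Fin s → ℝ, (∀ i, (H : ℝ) ^ (-δ) ≤ ρ i ∧ ρ i ≤ 1) → ∀ M : ℕ,
      Bounds d m H r δ c C B M H (InBox P u ρ) (H * ∏ i, ρ i)) ∧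
    (∀ η : ℝ, 0 < η → ∃ (δ : ℝ) (H₀ : ℕ), 0 < δ ∧
      ∀ H : ℕ, H₀ ≤ H → ∀ P : Fin s → ℝ[X], (∀ i, (P i).natDegree ≤ k) → FiniteType c₀ τ (fun i => (P i).coeff k) →
      ∀ u ρ : Fin s → ℝ, (∀ i, (H : ℝ) ^ (-δ) ≤ ρ i ∧ ρ i ≤ 1) → ∀ M z : ℕ, 3 ≤ z → (z : ℝ) ≤ (H : ℝ) ^ δ →
      Rough d m η M H z (InBox P u ρ) (H * ∏ i, ρ i))) ∧
    -- algebraic numbers
    (∀ (s : ℕ) (α : Fin s → ℝ), (∀ i, IsAlgebraic ℚ (α i)) →
      (∀ (h : Fin s → ℤ) (a : ℤ), ∑ i, (h i : ℝ) * α i = a → h = 0) →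
      ∃ (c₀ : ℝ) (τ : ℕ), 0 < c₀ ∧ FiniteType c₀ τ α) := by
  refine ⟨fun d m hadm s k τ c₀ hk hc₀ => ⟨?_, ?_⟩,
    fun s α hα hind => Pool.Agent.X220.FP.liouville_vec s α hα hind⟩
  · intro B
    obtain ⟨r, δ, c, C, H₀, hδ, hc, hC, h⟩ :=
      Pool.Agent.X220.FP.fp_both s k τ hk c₀ hc₀ (f_sys hadm) (F d m) (hF d m) B
    exact ⟨r, δ, c, C, H₀, hδ, hc, hC, fun H hH P hP hFT u ρ hρ M => conv (h H hH P hP hFT u ρ hρ M)⟩
  · intro η hη
    obtain ⟨δ, H₀, hδ, h⟩ :=
      Pool.Agent.X220.FP.fp_asym s k τ hk c₀ hc₀ (f_sys hadm) (F d m) (hF d m) η hη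
    exact ⟨δ, H₀, hδ, fun H hH P hP hFT u ρ hρ M z hz hzH => convA (h H hH P hP hFT u ρ hρ M z hz hzH)⟩

end Pool.Agent.Results.MP_dff12b_nt.FractionalParts
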